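import Pool.Agent.N865.FB.Tri

/-! The algebras `BA φ τ = U ⊕ E ⊕ E ⊕ F`. -/

set_option linter.unusedSectionVars false

namespace N865.FB

open ExteriorAlgebra

section
variable {F : Type*} [Field F] {U : Type*} [AddCommGroup U] [Module F U]
  {W : Type*} [AddCommGroup W] [Module F W]

/-- carrier -/
def BA (_φ : U →ₗ[F] W) (_τ : ExteriorAlgebra F W →ₗ[F] F) : Type _ :=
  U × ExteriorAlgebra F W × ExteriorAlgebra F W × F

variable (φ : U →ₗ[F] W) (τ : ExteriorAlgebra F W →ₗ[F] F)

noncomputable instance : AddCommGroup (BA φ τ) :=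
  inferInstanceAs (AddCommGroup (U × ExteriorAlgebra F W × ExteriorAlgebra F W × F))

noncomputable instance : Module F (BA φ τ) :=
  inferInstanceAs (Module F (U × ExteriorAlgebra F W × ExteriorAlgebra F W × F))

variable {φ τ}

/-- build an element -/
def mk (u : U) (m n : ExteriorAlgebra F W) (c : F) : BA φ τ := (u, m, n, c)

/-- components -/
def BA.x (a : BA φ τ) : U := a.1
def BA.m (a : BA φ τ) : ExteriorAlgebra F W := a.2.1
def BA.n (a : BA φ τ) : ExteriorAlgebra F W := a.2.2.1
def BA.c (a : BA φ τ) : F := a.2.2.2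

lemma BA.ext' {a b : BA φ τ} (h1 : a.x = b.x) (h2 : a.m = b.m) (h3 : a.n = b.n)
    (h4 : a.c = b.c) : a = b :=
  Prod.ext h1 (Prod.ext h2 (Prod.ext h3 h4))

@[simp] lemma mk_x (u : U) (m n : ExteriorAlgebra F W) (c : F) : (mk u m n c : BA φ τ).x = u := rfl
@[simp] lemma mk_m (u : U) (m n : ExteriorAlgebra F W) (c : F) : (mk u m n c : BA φ τ).m = m := rfl
@[simp] lemma mk_n (u : U) (m n : ExteriorAlgebra F W) (c : F) : (mk u m n c : BA φ τ).n = n := rfl
@[simp] lemma mk_c (u : U) (m n : ExteriorAlgebra F W) (c : F) : (mk u m n c : BA φ τ).c = c := rfl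
@[simp] lemma add_x (a b : BA φ τ) : (a + b).x = a.x + b.x := rfl
@[simp] lemma add_m (a b : BA φ τ) : (a + b).m = a.m + b.m := rfl
@[simp] lemma add_n (a b : BA φ τ) : (a + b).n = a.n + b.n := rfl
@[simp] lemma add_c (a b : BA φ τ) : (a + b).c = a.c + b.c := rfl
@[simp] lemma sub_x (a b : BA φ τ) : (a - b).x = a.x - b.x := rfl
@[simp] lemma sub_m (a b : BA φ τ) : (a - b).m = a.m - b.m := rfl
@[simp] lemma sub_n (a b : BA φ τ) : (a - b).n = a.n - b.n := rfl
@[simp] lemma sub_c (a b : BA φ τ) : (a - b).c = a.c - b.c := rfl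
@[simp] lemma zero_x : (0 : BA φ τ).x = 0 := rfl
@[simp] lemma zero_m : (0 : BA φ τ).m = 0 := rfl
@[simp] lemma zero_n : (0 : BA φ τ).n = 0 := rfl
@[simp] lemma zero_c : (0 : BA φ τ).c = 0 := rfl
@[simp] lemma smul_x (r : F) (a : BA φ τ) : (r • a).x = r • a.x := rfl
@[simp] lemma smul_m (r : F) (a : BA φ τ) : (r • a).m = r • a.m := rfl
@[simp] lemma smul_n (r : F) (a : BA φ τ) : (r • a).n = r • a.n := rfl
@[simp] lemma smul_c (r : F) (a : BA φ τ) : (r • a).c = r • a.c := rfl

noncomputable instance : Mul (BA φ τ) where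
  mul a b := mk 0 (a.m * ι F (φ b.x) + b.m * ι F (φ a.x))
    (ι F (φ a.x) * b.n + ι F (φ b.x) * a.n + jm a.m b.m) (τ (a.n * b.m) + τ (b.n * a.m))

@[simp] lemma mul_x (a b : BA φ τ) : (a * b).x = 0 := rfl
@[simp] lemma mul_m (a b : BA φ τ) :
    (a * b).m = a.m * ι F (φ b.x) + b.m * ι F (φ a.x) := rfl
@[simp] lemma mul_n (a b : BA φ τ) :
    (a * b).n = ι F (φ a.x) * b.n + ι F (φ b.x) * a.n + jm a.m b.m := rfl
@[simp] lemma mul_c (a b : BA φ τ) :
    (a * b).c = τ (a.n * b.m) + τ (b.n * a.m) := rfl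

lemma jm_add_left (a b c : ExteriorAlgebra F W) : jm (a + b) c = jm a c + jm b c := by
  unfold jm; noncomm_ring
lemma jm_add_right (a b c : ExteriorAlgebra F W) : jm a (b + c) = jm a b + jm a c := by
  unfold jm; noncomm_ring
lemma jm_comm (a b : ExteriorAlgebra F W) : jm a b = jm b a := by
  unfold jm; rw [add_comm]
lemma jm_zero_left (a : ExteriorAlgebra F W) : jm 0 a = 0 := by simp [jm]
lemma jm_zero_right (a : ExteriorAlgebra F W) : jm a 0 = 0 := by simp [jm]
lemma jm_smul_left (r : F) (a b : ExteriorAlgebra F W) : jm (r • a) b = r • jm a b := by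
  simp [jm]
lemma jm_smul_right (r : F) (a b : ExteriorAlgebra F W) : jm a (r • b) = r • jm a b := by
  simp [jm]

noncomputable instance : NonUnitalNonAssocRing (BA φ τ) :=
  { (inferInstance : AddCommGroup (BA φ τ)), (inferInstance : Mul (BA φ τ)) with
    left_distrib := by
      intro a b c
      apply BA.ext'
      · simp
      · simp [mul_add, add_mul]; abel
      · simp [mul_add, add_mul, jm_add_right]; abel
      · simp [mul_add, add_mul]; abel
    right_distrib := by
      intro a b c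
      apply BA.ext'
      · simp
      · simp [mul_add, add_mul]; abel
      · simp [mul_add, add_mul, jm_add_left]; abel
      · simp [mul_add, add_mul]; abel
    zero_mul := by
      intro a
      apply BA.ext' <;> simp [jm_zero_left]
    mul_zero := by
      intro a
      apply BA.ext' <;> simp [jm_zero_right] }

instance : IsScalarTower F (BA φ τ) (BA φ τ) where
  smul_assoc r a b := by
    change (r • a) * b = r • (a * b)
    apply BA.ext'
    · simp
    · simp
    · simp [jm_smul_left]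
    · simp [mul_add]

instance : SMulCommClass F (BA φ τ) (BA φ τ) where
  smul_comm r a b := by
    change r • (a * b) = a * (r • b)
    apply BA.ext'
    · simp
    · simp
    · simp [jm_smul_right]
    · simp [mul_add]

lemma ba_comm (a b : BA φ τ) : a * b = b * a := by
  apply BA.ext'
  · simp
  · simp [add_comm]
  · simp [add_comm, jm_comm]
  · simp [add_comm]

variable [CharP F 3]

lemma jm_jac (x m m' : ExteriorAlgebra F W) :
    x * jm m m' + jm (m * x) m' + jm (m' * x) m = 0 := by
  have h := S3_zero x m m'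
  unfold S3 at h
  unfold jm
  calc _ = -(x * m * m' + x * m' * m + m * x * m' + m * m' * x + m' * x * m + m' * m * x) := by
        noncomm_ring
    _ = 0 := by rw [h, neg_zero]

lemma tt_jac (a b c : ExteriorAlgebra F W) :
    tt a b c + tt b c a + tt c a b = 0 := by
  have h := S3_zero a b c
  unfold S3 at h
  unfold tt jm
  calc _ = -(a * b * c + a * c * b + b * a * c + b * c * a + c * a * b + c * b * a) := by
        noncomm_ring
    _ = 0 := by rw [h, neg_zero]

lemma ba_jacobi (hτ : ∀ (x : W) (g : ExteriorAlgebra F W), τ (ι F x * g) = - τ (g * ι F x))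
    (a b c : BA φ τ) : (a * b) * c + (b * c) * a + (c * a) * b = 0 := by
  apply BA.ext'
  · simp
  · simp only [add_m, mul_m, mul_x, map_zero, mul_zero, add_zero, zero_m]
    have key : ∀ (m : ExteriorAlgebra F W) (x y : W),
        m * ι F x * ι F y + m * ι F y * ι F x = 0 := by
      intro m x y
      rw [mul_assoc, mul_assoc, ← mul_add, ι_add_mul_swap, mul_zero]
    have k1 := key a.m (φ b.x) (φ c.x)
    have k2 := key b.m (φ a.x) (φ c.x)
    have k3 := key c.m (φ a.x) (φ b.x)
    simp only [add_mul]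
    calc _ = (a.m * ι F (φ b.x) * ι F (φ c.x) + a.m * ι F (φ c.x) * ι F (φ b.x))
          + (b.m * ι F (φ a.x) * ι F (φ c.x) + b.m * ι F (φ c.x) * ι F (φ a.x))
          + (c.m * ι F (φ a.x) * ι F (φ b.x) + c.m * ι F (φ b.x) * ι F (φ a.x)) := by abel
      _ = 0 := by rw [k1, k2, k3]; simp
  · simp only [add_n, mul_n, mul_x, mul_m, map_zero, zero_mul, zero_add, zero_n]
    have key : ∀ (n : ExteriorAlgebra F W) (x y : W),
        ι F x * (ι F y * n) + ι F y * (ι F x * n) = 0 := by
      intro n x y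
      rw [← mul_assoc, ← mul_assoc, ← add_mul, ι_add_mul_swap, zero_mul]
    have k1 := key a.n (φ b.x) (φ c.x)
    have k2 := key b.n (φ a.x) (φ c.x)
    have k3 := key c.n (φ a.x) (φ b.x)
    have j1 := jm_jac (ι F (φ a.x)) b.m c.m
    have j2 := jm_jac (ι F (φ b.x)) c.m a.m
    have j3 := jm_jac (ι F (φ c.x)) a.m b.m
    simp only [mul_add, jm_add_left]
    calc _ = (ι F (φ b.x) * (ι F (φ c.x) * a.n) + ι F (φ c.x) * (ι F (φ b.x) * a.n))
        + (ι F (φ a.x) * (ι F (φ c.x) * b.n) + ι F (φ c.x) * (ι F (φ a.x) * b.n))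
        + (ι F (φ a.x) * (ι F (φ b.x) * c.n) + ι F (φ b.x) * (ι F (φ a.x) * c.n))
        + (ι F (φ a.x) * jm b.m c.m + jm (b.m * ι F (φ a.x)) c.m + jm (c.m * ι F (φ a.x)) b.m)
        + (ι F (φ b.x) * jm c.m a.m + jm (c.m * ι F (φ b.x)) a.m + jm (a.m * ι F (φ b.x)) c.m)
        + (ι F (φ c.x) * jm a.m b.m + jm (a.m * ι F (φ c.x)) b.m + jm (b.m * ι F (φ c.x)) a.m)
        := by abel
      _ = 0 := by rw [k1, k2, k3, j1, j2, j3]; simp
  · simp only [add_c, mul_c, mul_x, mul_m, mul_n, map_zero, zero_mul, zero_add, zero_c]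
    have key : ∀ (n m : ExteriorAlgebra F W) (x : W),
        τ (ι F x * n * m) + τ (n * (m * ι F x)) = 0 := by
      intro n m x
      rw [mul_assoc, hτ, ← mul_assoc n]; simp
    have t0 : τ (jm a.m b.m * c.m) + τ (jm b.m c.m * a.m) + τ (jm c.m a.m * b.m) = 0 := by
      rw [← map_add, ← map_add]
      have := tt_jac a.m b.m c.m
      unfold tt at this
      rw [this, map_zero]
    have k1 := key a.n b.m (φ c.x)
    have k2 := key a.n c.m (φ b.x)
    have k3 := key b.n a.m (φ c.x)
    have k4 := key b.n c.m (φ a.x)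
    have k5 := key c.n a.m (φ b.x)
    have k6 := key c.n b.m (φ a.x)
    simp only [add_mul, mul_add, map_add]
    linear_combination t0 + k1 + k2 + k3 + k4 + k5 + k6

end

end N865.FB
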