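import Mathlib

/-! Varieties of nonassociative algebras. -/

namespace N865.FB

universe u

/-- Nonassociative polynomials over `F` in countably many variables `x_0, x_1, ...`. -/
abbrev Poly (F : Type u) [Field F] := FreeNonUnitalNonAssocAlgebra F ℕ

/-- `p = 0` is an identity of the algebra `A`: every evaluation of `p` in `A` is zero. -/
def Holds {F : Type u} [Field F] (p : Poly F) (A : Type u) [NonUnitalNonAssocRing A]
    [Module F A] [IsScalarTower F A A] [SMulCommClass F A A] : Prop :=
  ∀ v : ℕ → A, FreeNonUnitalNonAssocAlgebra.lift F v p = 0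

/-- `A` belongs to the variety defined by the set `S` of identities. -/
def InVariety {F : Type u} [Field F] (S : Set (Poly F)) (A : Type u) [NonUnitalNonAssocRing A]
    [Module F A] [IsScalarTower F A A] [SMulCommClass F A A] : Prop :=
  ∀ p ∈ S, Holds p A

/-- The variety defined by `S` is defined by finitely many identities. -/
def FinitelyBased {F : Type u} [Field F] (S : Set (Poly F)) : Prop :=
  ∃ T : Set (Poly F), T.Finite ∧
    ∀ (A : Type u) [NonUnitalNonAssocRing A] [Module F A] [IsScalarTower F A A]
      [SMulCommClass F A A], InVariety T A ↔ InVariety S A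

/-- The solvable series `A^(0) = A`, `A^(k+1) = A^(k) A^(k)`. -/
def solvSeries (F : Type u) [Field F] (A : Type u) [NonUnitalNonAssocRing A] [Module F A] :
    ℕ → Submodule F A
  | 0 => ⊤
  | k + 1 => Submodule.span F
      {z | ∃ x ∈ solvSeries F A k, ∃ y ∈ solvSeries F A k, z = x * y}

/-- Alternative algebras: `(x,x,y) = (y,x,x) = 0`. -/
def IsAlternative (A : Type u) [NonUnitalNonAssocRing A] : Prop :=
  ∀ x y : A, (x * x) * y - x * (x * y) = 0 ∧ (y * x) * x - y * (x * x) = 0

/-- Jordan algebras: commutative with `(x^2 y) x = x^2 (y x)`. -/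
def IsJordan' (A : Type u) [NonUnitalNonAssocRing A] : Prop :=
  (∀ x y : A, x * y = y * x) ∧ ∀ x y : A, ((x * x) * y) * x = (x * x) * (y * x)

end N865.FB
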