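import Mathlib

/-! Facts on the exterior algebra in characteristic three. -/

set_option linter.unusedSectionVars false

namespace N865.FB

open ExteriorAlgebra

section
variable {F : Type*} [Field F] {W : Type*} [AddCommGroup W] [Module F W]

/-- the grade involution -/
noncomputable def sg : ExteriorAlgebra F W →ₐ[F] ExteriorAlgebra F W :=
  ExteriorAlgebra.lift F ⟨-(ι F), fun m => by simp⟩

@[simp] lemma sg_ι (v : W) : sg (ι F v) = - ι F v := by
  simp [sg]

@[simp] lemma sg_sg (a : ExteriorAlgebra F W) : sg (sg a) = a := by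
  have h : (sg.comp sg : ExteriorAlgebra F W →ₐ[F] ExteriorAlgebra F W) = AlgHom.id F _ := by
    apply ExteriorAlgebra.hom_ext
    ext v
    simp
  exact DFunLike.congr_fun h a

lemma ι_mul (v : W) (a : ExteriorAlgebra F W) : ι F v * a = sg a * ι F v := by
  induction a using ExteriorAlgebra.induction with
  | algebraMap r => simpa using (Algebra.commutes r (ι F v)).symm
  | ι w =>
    have h := ι_add_mul_swap (R := F) v w
    rw [sg_ι, neg_mul]
    exact eq_neg_of_add_eq_zero_left h
  | mul a b ha hb => rw [← mul_assoc, ha, mul_assoc, hb, ← mul_assoc, map_mul]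
  | add a b ha hb => rw [mul_add, ha, hb, map_add, add_mul]

lemma central_of_even {c : ExteriorAlgebra F W} (hc : sg c = c) (b : ExteriorAlgebra F W) :
    c * b = b * c := by
  induction b using ExteriorAlgebra.induction with
  | algebraMap r => exact (Algebra.commutes r c).symm
  | ι w => rw [ι_mul, hc]
  | mul a b ha hb => rw [← mul_assoc, ha, mul_assoc, hb, ← mul_assoc]
  | add a b ha hb => rw [mul_add, ha, hb, add_mul]

lemma mul_of_odd {a : ExteriorAlgebra F W} (ha : sg a = -a) (b : ExteriorAlgebra F W) :
    a * b = sg b * a := by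
  induction b using ExteriorAlgebra.induction with
  | algebraMap r => simpa using (Algebra.commutes r a).symm
  | ι w => rw [sg_ι, neg_mul, ι_mul, ha, neg_mul, neg_neg]
  | mul b c hb hc => rw [← mul_assoc, hb, mul_assoc, hc, ← mul_assoc, map_mul]
  | add b c hb hc => rw [mul_add, hb, hc, map_add, add_mul]

lemma sg_pair (u v : W) : sg (ι F u * ι F v) = ι F u * ι F v := by
  simp

variable [CharP F 3]

lemma three_eq (a : ExteriorAlgebra F W) : a + a + a = 0 := by
  have h3 : (3 : F) = 0 := by exact_mod_cast CharP.cast_eq_zero F 3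
  have : a + a + a = (3 : F) • a := by
    have : (3 : F) = 1 + 1 + 1 := by norm_num
    rw [this, add_smul, add_smul, one_smul]
  rw [this, h3, zero_smul]

/-- symmetrised triple product -/
noncomputable def S3 (a b c : ExteriorAlgebra F W) : ExteriorAlgebra F W :=
  a * b * c + a * c * b + b * a * c + b * c * a + c * a * b + c * b * a

lemma S3_swap12 (a b c : ExteriorAlgebra F W) : S3 a b c = S3 b a c := by
  unfold S3; abel

lemma S3_swap23 (a b c : ExteriorAlgebra F W) : S3 a b c = S3 a c b := by
  unfold S3; abel

lemma S3_add (a a' b c : ExteriorAlgebra F W) : S3 (a + a') b c = S3 a b c + S3 a' b c := by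
  unfold S3; noncomm_ring

lemma S3_even {a : ExteriorAlgebra F W} (ha : sg a = a) (b c : ExteriorAlgebra F W) :
    S3 a b c = 0 := by
  have h1 := central_of_even ha b
  have h2 := central_of_even ha c
  have e1 : b * a * c = a * (b * c) := by rw [← h1, mul_assoc]
  have e2 : b * c * a = a * (b * c) := by rw [mul_assoc, ← h2, ← mul_assoc, ← h1, mul_assoc]
  have e3 : c * a * b = a * (c * b) := by rw [← h2, mul_assoc]
  have e4 : c * b * a = a * (c * b) := by rw [mul_assoc, ← h1, ← mul_assoc, ← h2, mul_assoc]
  unfold S3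
  rw [e1, e2, e3, e4]
  have t1 := three_eq (a * (b * c))
  have t2 := three_eq (a * (c * b))
  rw [mul_assoc a b c, mul_assoc a c b]
  calc _ = (a * (b * c) + a * (b * c) + a * (b * c)) + (a * (c * b) + a * (c * b) + a * (c * b)) := by
        abel
    _ = 0 := by rw [t1, t2, add_zero]

lemma S3_odd {a b c : ExteriorAlgebra F W} (ha : sg a = -a) (hb : sg b = -b) (hc : sg c = -c) :
    S3 a b c = 0 := by
  have h1 : b * a = - (a * b) := by rw [mul_of_odd ha b, hb, neg_mul, neg_neg]
  have h2 : c * a = - (a * c) := by rw [mul_of_odd ha c, hc, neg_mul, neg_neg]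
  have h3 : c * b = - (b * c) := by rw [mul_of_odd hb c, hc, neg_mul, neg_neg]
  have e1 : a * c * b = - (a * b * c) := by rw [mul_assoc, h3, mul_neg, mul_assoc]
  have e2 : b * a * c = - (a * b * c) := by rw [h1, neg_mul]
  have e3 : b * c * a = a * b * c := by
    rw [mul_assoc, h2, mul_neg, ← mul_assoc, h1, neg_mul, neg_neg]
  have e4 : c * a * b = a * b * c := by rw [h2, neg_mul, e1, neg_neg]
  have e5 : c * b * a = - (a * b * c) := by rw [h3, neg_mul, e3]
  unfold S3
  rw [e1, e2, e3, e4, e5]
  abel

/-- even part -/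
noncomputable def evp (a : ExteriorAlgebra F W) : ExteriorAlgebra F W := -(a + sg a)
/-- odd part -/
noncomputable def odp (a : ExteriorAlgebra F W) : ExteriorAlgebra F W := -(a - sg a)

lemma evp_add_odp (a : ExteriorAlgebra F W) : evp a + odp a = a := by
  have h := three_eq a
  unfold evp odp
  calc -(a + sg a) + -(a - sg a) = -(a + a + a) + a := by abel
    _ = a := by rw [h, neg_zero, zero_add]

lemma sg_evp (a : ExteriorAlgebra F W) : sg (evp a) = evp a := by
  unfold evp; rw [map_neg, map_add, sg_sg, add_comm]

lemma sg_odp (a : ExteriorAlgebra F W) : sg (odp a) = - odp a := by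
  unfold odp; rw [map_neg, map_sub, sg_sg]; abel

lemma S3_zero (a b c : ExteriorAlgebra F W) : S3 a b c = 0 := by
  rw [← evp_add_odp a, S3_add, S3_even (sg_evp a), zero_add, S3_swap12]
  rw [← evp_add_odp b, S3_add, S3_even (sg_evp b), zero_add, S3_swap23, S3_swap12]
  rw [← evp_add_odp c, S3_add, S3_even (sg_evp c), zero_add]
  exact S3_odd (sg_odp c) (sg_odp b) (sg_odp a)

lemma two_cancel {a : ExteriorAlgebra F W} (h : a + a = 0) : a = 0 := by
  have h3 := three_eq a
  rw [h, zero_add] at h3
  exact h3

/-- the polarisation of the cube -/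
lemma pol (a b : ExteriorAlgebra F W) : a * a * b + a * b * a + b * a * a = 0 := by
  apply two_cancel
  have h := S3_zero a a b
  unfold S3 at h
  rw [← h]; abel

lemma cube_add (a b : ExteriorAlgebra F W) :
    (a + b) * (a + b) * (a + b) = a * a * a + b * b * b := by
  have h1 := pol a b
  have h2 := pol b a
  calc (a + b) * (a + b) * (a + b) = a * a * a + b * b * b
        + (a * a * b + a * b * a + b * a * a) + (b * b * a + b * a * b + a * b * b) := by
        noncomm_ring
    _ = _ := by rw [h1, h2]; abel

/-- the scalar part -/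
noncomputable def ep : ExteriorAlgebra F W →ₐ[F] F := ExteriorAlgebra.algebraMapInv

lemma ep_algebraMap (r : F) : ep (algebraMap F (ExteriorAlgebra F W) r) = r :=
  ExteriorAlgebra.algebraMap_leftInverse W r

lemma ep_ι (v : W) : ep (ι F v) = 0 := by
  simp [ep, ExteriorAlgebra.algebraMapInv]

lemma cube_eq (a : ExteriorAlgebra F W) :
    a * a * a = algebraMap F _ (ep a ^ 3) := by
  induction a using CliffordAlgebra.left_induction with
  | algebraMap r =>
    rw [show (algebraMap F (CliffordAlgebra (0 : QuadraticForm F W)) r)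
      = algebraMap F (ExteriorAlgebra F W) r from rfl, ep_algebraMap, ← map_mul, ← map_mul]
    congr 1; ring
  | add a b ha hb =>
    have := cube_add (F := F) (W := W) a b
    rw [this, ha, hb, ← map_add, map_add ep]
    congr 1
    have : Fact (Nat.Prime 3) := ⟨Nat.prime_three⟩
    exact (add_pow_char (R := F) (p := 3) _ _).symm
  | ι_mul a m ha =>
    change (ι F m * a) * (ι F m * a) * (ι F m * a) = algebraMap F _ (ep (ι F m * a) ^ 3)
    rw [map_mul, ep_ι, zero_mul]
    have h1 : ι F m * a * (ι F m * a) = 0 := by
      rw [← mul_assoc, ι_mul m a, mul_assoc (sg a), ι_sq_zero, mul_zero, zero_mul]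
    rw [h1, zero_mul]
    simp

end

end N865.FB
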