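import Pool.Agent.N865.FB.Tau
import Pool.Agent.N865.FB.Defs

/-! The identities and their values. -/

set_option linter.unusedSectionVars false

namespace N865.FB

open ExteriorAlgebra

universe u

section
variable (F : Type u) [Field F]

/-- the variables -/
noncomputable def X (i : ℕ) : Poly F := FreeNonUnitalNonAssocAlgebra.of F i

/-- commutativity -/
noncomputable def pComm : Poly F := X F 0 * X F 1 - X F 1 * X F 0

/-- the Jacobi identity -/
noncomputable def pJac : Poly F :=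
  (X F 0 * X F 1) * X F 2 + (X F 1 * X F 2) * X F 0 + (X F 2 * X F 0) * X F 1

/-- solvability of index three -/
noncomputable def pSolv : Poly F :=
  ((X F 0 * X F 1) * (X F 2 * X F 3)) * ((X F 4 * X F 5) * (X F 6 * X F 7))

/-- the long factor `(...((x_0 x_c) x_6) ...) x_{5+n}` -/
noncomputable def pLong (c : ℕ) : ℕ → Poly F
  | 0 => X F 0 * X F c
  | n + 1 => pLong c n * X F (6 + n)

/-- the long identities -/
noncomputable def pF (n : ℕ) : Poly F :=
  (((X F 0 * X F 1) * X F 5) * ((X F 0 * X F 2) * X F 4)) * pLong F 3 n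
  - (((X F 0 * X F 1) * X F 3) * ((X F 0 * X F 2) * X F 4)) * pLong F 5 n
  + (((X F 0 * X F 1) * X F 2) * ((X F 0 * X F 3) * X F 4)) * pLong F 5 n
  - (((X F 0 * X F 2) * X F 1) * ((X F 0 * X F 3) * X F 4)) * pLong F 5 n

/-- the system of identities -/
noncomputable def Sys : Set (Poly F) := {pComm F, pJac F, pSolv F} ∪ Set.range (pF F)

end

section
variable {F : Type u} [Field F] {U : Type u} [AddCommGroup U] [Module F U]
  {W : Type u} [AddCommGroup W] [Module F W] {φ : U →ₗ[F] W}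
  {τ : ExteriorAlgebra F W →ₗ[F] F}

/-- evaluation -/
noncomputable abbrev ev {A : Type u} [NonUnitalNonAssocRing A]
    [Module F A] [IsScalarTower F A A] [SMulCommClass F A A] (v : ℕ → A) :
    Poly F →ₙₐ[F] A := FreeNonUnitalNonAssocAlgebra.lift F v

@[simp] lemma ev_X {A : Type u} [NonUnitalNonAssocRing A]
    [Module F A] [IsScalarTower F A A] [SMulCommClass F A A] (v : ℕ → A) (i : ℕ) :
    ev v (X F i) = v i := by
  simp [ev, X]

/-- the sequence of vectors -/
def sq (v : ℕ → BA φ τ) : ℕ → W := fun t => φ (v (t + 1)).x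

/-- tail product -/
noncomputable def VV (v : ℕ → BA φ τ) : ℕ → ExteriorAlgebra F W
  | 0 => 1
  | n + 1 => VV v n * ι F (φ (v (6 + n)).x)

lemma pLong_x (v : ℕ → BA φ τ) (c n : ℕ) : (ev v (pLong F c n)).x = 0 := by
  cases n <;> simp [pLong, map_mul]

lemma pLong_m (v : ℕ → BA φ τ) (c n : ℕ) :
    (ev v (pLong F c n)).m
      = ((v 0).m * ι F (φ (v c).x) + (v c).m * ι F (φ (v 0).x)) * VV v n := by
  induction n with
  | zero => simp [pLong, VV, map_mul]
  | succ n ih =>
    rw [pLong, map_mul, mul_m, ih, pLong_x, map_zero, map_zero, mul_zero, add_zero, ev_X, VV,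
      mul_assoc]

lemma triple_val (P Q R : BA φ τ) (hP : P.x = 0) (hQ : Q.x = 0) (hR : R.x = 0) :
    (P * Q) * R = mk 0 0 0 (τ (tt P.m Q.m R.m)) := by
  apply BA.ext'
  · simp
  · simp [hP, hQ, hR]
  · simp [hP, hQ, hR, jm_zero_left]
  · simp [hP, hQ, tt]

lemma mk_sub_c (a b : F) : (mk 0 0 0 a : BA φ τ) - mk 0 0 0 b = mk 0 0 0 (a - b) := by
  apply BA.ext' <;> simp
lemma mk_add_c (a b : F) : (mk 0 0 0 a : BA φ τ) + mk 0 0 0 b = mk 0 0 0 (a + b) := by
  apply BA.ext' <;> simp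

lemma PP_tail (v : ℕ → BA φ τ) (n : ℕ) : PP (sq v) (5 + n) = PP (sq v) 5 * VV v n := by
  induction n with
  | zero => simp [VV]
  | succ n ih =>
    have : 5 + (n + 1) = (5 + n) + 1 := by ring
    rw [this, PP, ih, VV, mul_assoc]
    congr 3
    unfold sq
    congr 3
    ring

variable [CharP F 3]

lemma pF_val (v : ℕ → BA φ τ) (n : ℕ) :
    ev v (pF F n) = mk 0 0 0 (ep (v 0).m ^ 3 * τ (PP (sq v) (5 + n))) := by
  unfold pF
  simp only [map_sub, map_add, map_mul]
  have hx : ∀ a b : BA φ τ, (a * b).x = 0 := fun a b => rfl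
  rw [triple_val _ _ _ (hx _ _) (hx _ _) (pLong_x v 3 n),
    triple_val _ _ _ (hx _ _) (hx _ _) (pLong_x v 5 n),
    triple_val _ _ _ (hx _ _) (hx _ _) (pLong_x v 5 n),
    triple_val _ _ _ (hx _ _) (hx _ _) (pLong_x v 5 n)]
  rw [mk_sub_c, mk_add_c, mk_sub_c]
  congr 1
  rw [← map_sub, ← map_add, ← map_sub]
  simp only [pLong_m, mul_m, mul_x, ev_X, map_zero, mul_zero, add_zero]
  have h := four_terms (v 0).m (φ (v 0).x) (φ (v 4).x) (VV v n) (v 1).m (v 2).m (v 3).m (v 5).m
    (φ (v 1).x) (φ (v 2).x) (φ (v 3).x) (φ (v 5).x)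
  unfold term at h
  rw [h, cube_eq, ← Algebra.smul_def, map_smul, smul_eq_mul, PP_tail]
  congr 2
  simp only [PP, one_mul, QQ, sq, mul_assoc]

end

end N865.FB
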