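import Pool.Agent.N865.FB.Ident

/-! The variety is not finitely based. -/

set_option linter.unusedSectionVars false

namespace N865.FB

open ExteriorAlgebra

universe u

section
variable {F : Type u} [Field F]

/-- polynomials depending on finitely many variables form a subalgebra -/
def finVar (F : Type u) [Field F] : NonUnitalSubalgebra F (Poly F) where
  carrier := {t | ∃ n : ℕ, ∀ (A : Type u) [NonUnitalNonAssocRing A] [Module F A]
    [IsScalarTower F A A] [SMulCommClass F A A] (v v' : ℕ → A),
    (∀ i < n, v i = v' i) → ev v t = ev v' t}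
  zero_mem' := ⟨0, by intros; simp⟩
  add_mem' := by
    rintro a b ⟨n, hn⟩ ⟨m, hm⟩
    refine ⟨max n m, ?_⟩
    intro A _ _ _ _ v v' h
    rw [map_add, map_add, hn A v v' (fun i hi => h i (lt_of_lt_of_le hi (le_max_left _ _))),
      hm A v v' (fun i hi => h i (lt_of_lt_of_le hi (le_max_right _ _)))]
  mul_mem' := by
    rintro a b ⟨n, hn⟩ ⟨m, hm⟩
    refine ⟨max n m, ?_⟩
    intro A _ _ _ _ v v' h
    rw [map_mul, map_mul, hn A v v' (fun i hi => h i (lt_of_lt_of_le hi (le_max_left _ _))),
      hm A v v' (fun i hi => h i (lt_of_lt_of_le hi (le_max_right _ _)))]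
  smul_mem' := by
    rintro c a ⟨n, hn⟩
    refine ⟨n, ?_⟩
    intro A _ _ _ _ v v' h
    rw [map_smul, map_smul, hn A v v' h]

lemma mem_finVar (t : Poly F) : t ∈ finVar F := by
  have hX : ∀ i : ℕ, X F i ∈ finVar F := fun i =>
    ⟨i + 1, by intro A _ _ _ _ v v' h; rw [ev_X, ev_X]; exact h i (Nat.lt_succ_self i)⟩
  let g : Poly F →ₙₐ[F] finVar F :=
    FreeNonUnitalNonAssocAlgebra.lift F (fun i => (⟨X F i, hX i⟩ : finVar F))
  have hg : ((NonUnitalSubalgebraClass.subtype (finVar F)).comp g : Poly F →ₙₐ[F] Poly F)
      = NonUnitalAlgHom.id F (Poly F) := by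
    apply FreeNonUnitalNonAssocAlgebra.hom_ext
    intro x
    simp [g, X]
  have := DFunLike.congr_fun hg t
  simp only [NonUnitalAlgHom.comp_apply] at this
  have h2 : (g t : Poly F) = t := this
  rw [← h2]
  exact (g t).2

lemma exists_bound (T : Set (Poly F)) (hT : T.Finite) :
    ∃ n : ℕ, ∀ t ∈ T, ∀ (A : Type u) [NonUnitalNonAssocRing A] [Module F A]
      [IsScalarTower F A A] [SMulCommClass F A A] (v v' : ℕ → A),
      (∀ i < n, v i = v' i) → ev v t = ev v' t := by
  classical
  choose f hf using fun t : Poly F => mem_finVar t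
  obtain ⟨n, hn⟩ := (hT.image f).bddAbove
  refine ⟨n, fun t ht A _ _ _ _ v v' h => hf t A v v' fun i hi => h i ?_⟩
  exact lt_of_lt_of_le hi (hn ⟨t, ht, rfl⟩)

end

section
variable {F : Type u} [Field F] [CharP F 3]

lemma three_zero {A : Type u} [AddCommGroup A] [Module F A] (a : A) : a + a + a = 0 := by
  have h3 : (3 : F) = 0 := by exact_mod_cast CharP.cast_eq_zero F 3
  have : a + a + a = (3 : F) • a := by
    have : (3 : F) = 1 + 1 + 1 := by norm_num
    rw [this, add_smul, add_smul, one_smul]
  rw [this, h3, zero_smul]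

lemma ba_val_solv {U W : Type u} [AddCommGroup U] [Module F U] [AddCommGroup W] [Module F W]
    {φ : U →ₗ[F] W} {τ : ExteriorAlgebra F W →ₗ[F] F} (a b c d a' b' c' d' : BA φ τ) :
    ((a * b) * (c * d)) * ((a' * b') * (c' * d')) = 0 := by
  apply BA.ext' <;> simp [jm_zero_left]

lemma ba_in {k n : ℕ} (hk : Even k) (hn : n < k) (φ : (Fin n → F) →ₗ[F] (Fin k → F)) :
    InVariety (Sys F) (BA φ (tau F k)) := by
  intro p hp v
  rcases hp with hp | ⟨m, rfl⟩
  · rcases hp with rfl | rfl | rfl
    · change ev v (pComm F) = 0
      simp only [pComm, map_sub, map_mul, ev_X]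
      rw [ba_comm, sub_self]
    · change ev v (pJac F) = 0
      simp only [pJac, map_add, map_mul, ev_X]
      exact ba_jacobi (tau_skew hk) _ _ _
    · change ev v (pSolv F) = 0
      simp only [pSolv, map_mul, ev_X]
      exact ba_val_solv _ _ _ _ _ _ _ _
  · change ev v (pF F m) = 0
    rw [pF_val]
    have : tau F k (PP (sq v) (5 + m)) = 0 := by
      rw [PP_eq]
      by_cases h : 5 + m = k
      · subst h
        rw [tau_ιMulti]
        have hdep : ¬ LinearIndependent F (fun i : Fin (5 + m) => (v (i + 1)).x) := by
          intro hli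
          have := hli.fintype_card_le_finrank
          simp at this
          omega
        exact (((Pi.basisFun F (Fin (5 + m))).det).compLinearMap φ).map_linearDependent _ hdep
      · exact tau_ιMulti_ne h _
    rw [this, mul_zero]
    rfl

lemma ba_not {n : ℕ} :
    ¬ Holds (pF F n) (BA (LinearMap.id : (Fin (5 + n) → F) →ₗ[F] (Fin (5 + n) → F))
      (tau F (5 + n))) := by
  intro h
  let v : ℕ → BA (LinearMap.id : (Fin (5 + n) → F) →ₗ[F] (Fin (5 + n) → F)) (tau F (5 + n)) :=
    fun i => if i = 0 then mk 0 1 0 0 else
      if hi : i - 1 < 5 + n then mk (Pi.basisFun F (Fin (5 + n)) ⟨i - 1, hi⟩) 0 0 0 else 0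
  have h1 := h v
  have h2 : ev v (pF F n) = 0 := h1
  rw [pF_val] at h2
  have h3 := congrArg BA.c h2
  rw [mk_c, zero_c] at h3
  have e0 : (v 0).m = 1 := by simp [v]
  rw [e0, map_one, one_pow, one_mul, PP_eq, tau_ιMulti] at h3
  have e1 : (fun i : Fin (5 + n) => sq v i) = Pi.basisFun F (Fin (5 + n)) := by
    funext i
    have : (v (i + 1)).x = Pi.basisFun F (Fin (5 + n)) i := by
      have hi : (i : ℕ) + 1 - 1 < 5 + n := by simp
      simp only [v]
      rw [if_neg (Nat.succ_ne_zero _), dif_pos hi]
      simp
    simp only [sq, this, LinearMap.id_apply]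
  rw [e1, Module.Basis.det_self] at h3
  exact one_ne_zero h3

/-- functoriality in `φ` -/
noncomputable def baMap {k n : ℕ} (φ : (Fin n → F) →ₗ[F] (Fin k → F)) :
    BA φ (tau F k) →ₙₐ[F]
      BA (LinearMap.id : (Fin k → F) →ₗ[F] (Fin k → F)) (tau F k) where
  toFun a := mk (φ a.x) a.m a.n a.c
  map_smul' r a := by apply BA.ext' <;> simp
  map_zero' := by apply BA.ext' <;> simp
  map_add' a b := by apply BA.ext' <;> simp
  map_mul' a b := by apply BA.ext' <;> simp

theorem not_fb : ¬ FinitelyBased (Sys F) := by
  rintro ⟨T, hT, h⟩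
  obtain ⟨n, hn⟩ := exists_bound T hT
  -- choose the degree `5 + m`, even and larger than `n`
  let m := 2 * n + 1
  have hk : Even (5 + m) := ⟨n + 3, by simp only [m]; ring⟩
  have hlt : n < 5 + m := by simp only [m]; omega
  have key : InVariety T (BA (LinearMap.id : (Fin (5 + m) → F) →ₗ[F] (Fin (5 + m) → F))
      (tau F (5 + m))) := by
    intro t ht v
    let φ : (Fin n → F) →ₗ[F] (Fin (5 + m) → F) :=
      Fintype.linearCombination F (fun i : Fin n => (v i).x)
    let v' : ℕ → BA φ (tau F (5 + m)) := fun i =>
      if hi : i < n then mk (Pi.single ⟨i, hi⟩ 1) (v i).m (v i).n (v i).c else 0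
    have hφ := (h (BA φ (tau F (5 + m)))).2 (ba_in hk hlt φ)
    have h0 : ev v' t = 0 := hφ t ht v'
    have h1 : ev (fun i => baMap φ (v' i)) t = baMap φ (ev v' t) := by
      have : (ev (fun i => baMap φ (v' i)) : Poly F →ₙₐ[F] _) = (baMap φ).comp (ev v') := by
        apply FreeNonUnitalNonAssocAlgebra.hom_ext
        intro x
        simp [ev]
      rw [this]; rfl
    have h2 : ev v t = ev (fun i => baMap φ (v' i)) t := by
      apply hn t ht
      intro i hi
      simp only [v', dif_pos hi]
      apply BA.ext'
      · change (v i).x = φ (Pi.single ⟨i, hi⟩ 1)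
        simp only [φ, Fintype.linearCombination_apply_single, one_smul]
      · rfl
      · rfl
      · rfl
    change ev v t = 0
    rw [h2, h1, h0, map_zero]
  have := (h _).1 key
  exact ba_not (this (pF F m) (Or.inr ⟨m, rfl⟩))

/-- the algebras of the variety -/
theorem var_props (A : Type u) [NonUnitalNonAssocRing A] [Module F A]
    [IsScalarTower F A A] [SMulCommClass F A A] (h : InVariety (Sys F) A) :
    IsAlternative A ∧ IsJordan' A ∧ solvSeries F A 3 = ⊥ := by
  have hcomm : ∀ x y : A, x * y = y * x := by
    intro x y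
    have := h (pComm F) (Or.inl (Or.inl rfl)) (fun i => if i = 0 then x else y)
    change ev _ (pComm F) = 0 at this
    simp only [pComm, map_sub, map_mul, ev_X] at this
    simpa [sub_eq_zero] using this
  have hjac : ∀ x y z : A, (x * y) * z + (y * z) * x + (z * x) * y = 0 := by
    intro x y z
    have := h (pJac F) (Or.inl (Or.inr (Or.inl rfl)))
      (fun i => if i = 0 then x else if i = 1 then y else z)
    change ev _ (pJac F) = 0 at this
    simp only [pJac, map_add, map_mul, ev_X] at this
    simpa using this
  have hsolv : ∀ a b c d a' b' c' d' : A,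
      ((a * b) * (c * d)) * ((a' * b') * (c' * d')) = 0 := by
    intro a b c d a' b' c' d'
    have := h (pSolv F) (Or.inl (Or.inr (Or.inr rfl)))
      (fun i => if i = 0 then a else if i = 1 then b else if i = 2 then c else if i = 3 then d
        else if i = 4 then a' else if i = 5 then b' else if i = 6 then c' else d')
    change ev _ (pSolv F) = 0 at this
    simp only [pSolv, map_mul, ev_X] at this
    simpa using this
  have hleft : ∀ x y : A, (x * x) * y = x * (x * y) := by
    intro x y
    have h1 := hjac x x y
    rw [hcomm (x * y) x, hcomm (y * x) x, hcomm y x] at h1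
    have h3 := three_zero (F := F) (x * (x * y))
    have : (x * x) * y - x * (x * y)
        = ((x * x) * y + x * (x * y) + x * (x * y))
          - (x * (x * y) + x * (x * y) + x * (x * y)) := by abel
    rw [h1, h3, sub_zero] at this
    exact sub_eq_zero.1 this
  refine ⟨?_, ⟨hcomm, ?_⟩, ?_⟩
  · intro x y
    refine ⟨by rw [hleft, sub_self], ?_⟩
    rw [hcomm (y * x) x, hcomm y x, ← hleft, hcomm (x * x) y, sub_self]
  · intro x y
    rw [hleft, hcomm (x * (x * y)) x, hcomm y x, hleft x (x * y)]
  · have hspan : ∀ (P : Submodule F A) (S S' : Set A)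
        (hS : ∀ x ∈ S, ∀ y ∈ S', x * y = 0), ∀ x ∈ Submodule.span F S,
        ∀ y ∈ Submodule.span F S', x * y = 0 := by
      intro _ S S' hS x hx y hy
      induction hx using Submodule.span_induction with
      | mem x hx =>
        induction hy using Submodule.span_induction with
        | mem y hy => exact hS x hx y hy
        | zero => exact mul_zero _
        | add a b _ _ ha hb => rw [mul_add, ha, hb, add_zero]
        | smul c a _ ha => rw [mul_smul_comm, ha, smul_zero]
      | zero => exact zero_mul _
      | add a b _ _ ha hb => rw [add_mul, ha, hb, add_zero]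
      | smul c a _ ha => rw [smul_mul_assoc, ha, smul_zero]
    -- products of four elements
    have hS2 : ∀ x ∈ solvSeries F A 2, ∀ a b c d : A, x * ((a * b) * (c * d)) = 0 := by
      intro x hx a b c d
      rw [solvSeries] at hx
      induction hx using Submodule.span_induction with
      | mem x hx =>
        obtain ⟨p, hp, q, hq, rfl⟩ := hx
        rw [solvSeries] at hp hq
        induction hp using Submodule.span_induction with
        | mem p hp =>
          obtain ⟨p1, -, p2, -, rfl⟩ := hp
          induction hq using Submodule.span_induction with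
          | mem q hq =>
            obtain ⟨q1, -, q2, -, rfl⟩ := hq
            exact hsolv _ _ _ _ _ _ _ _
          | zero => rw [mul_zero, zero_mul]
          | add q q' _ _ h1 h2 => rw [mul_add, add_mul, h1, h2, add_zero]
          | smul r q _ h1 => rw [mul_smul_comm, smul_mul_assoc, h1, smul_zero]
        | zero => rw [zero_mul, zero_mul]
        | add p p' _ _ h1 h2 => rw [add_mul, add_mul, h1, h2, add_zero]
        | smul r p _ h1 => rw [smul_mul_assoc, smul_mul_assoc, h1, smul_zero]
      | zero => exact zero_mul _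
      | add a b _ _ ha hb => rw [add_mul, ha, hb, add_zero]
      | smul c a _ ha => rw [smul_mul_assoc, ha, smul_zero]
    have hS3 : ∀ x ∈ solvSeries F A 2, ∀ y ∈ solvSeries F A 2, x * y = 0 := by
      intro x hx y hy
      rw [solvSeries] at hy
      induction hy using Submodule.span_induction with
      | mem y hy =>
        obtain ⟨p, hp, q, hq, rfl⟩ := hy
        rw [solvSeries] at hp hq
        induction hp using Submodule.span_induction with
        | mem p hp =>
          obtain ⟨p1, -, p2, -, rfl⟩ := hp
          induction hq using Submodule.span_induction with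
          | mem q hq =>
            obtain ⟨q1, -, q2, -, rfl⟩ := hq
            exact hS2 x hx _ _ _ _
          | zero => rw [mul_zero, mul_zero]
          | add q q' _ _ h1 h2 => rw [mul_add, mul_add, h1, h2, add_zero]
          | smul r q _ h1 => rw [mul_smul_comm, mul_smul_comm, h1, smul_zero]
        | zero => rw [zero_mul, mul_zero]
        | add p p' _ _ h1 h2 => rw [add_mul, mul_add, h1, h2, add_zero]
        | smul r p _ h1 => rw [smul_mul_assoc, mul_smul_comm, h1, smul_zero]
      | zero => exact mul_zero _
      | add a b _ _ ha hb => rw [mul_add, ha, hb, add_zero]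
      | smul c a _ ha => rw [mul_smul_comm, ha, smul_zero]
    rw [solvSeries, Submodule.span_eq_bot]
    rintro z ⟨x, hx, y, hy, rfl⟩
    exact hS3 x hx y hy

end

end N865.FB
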