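import Pool.Agent.N865.FB.Alg

/-! The functional reading off the top coefficient. -/

set_option linter.unusedSectionVars false

namespace N865.FB

open ExteriorAlgebra

section
variable {F : Type*} [Field F]

/-- the top coefficient -/
noncomputable def tau (F : Type*) [Field F] (k : ℕ) : ExteriorAlgebra F (Fin k → F) →ₗ[F] F :=
  liftAlternating (Pi.single (M := fun i => (Fin k → F) [⋀^Fin i]→ₗ[F] F) k
    (Pi.basisFun F (Fin k)).det)

lemma tau_ιMulti_ne {k j : ℕ} (h : j ≠ k) (v : Fin j → (Fin k → F)) :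
    tau F k (ιMulti F j v) = 0 := by
  unfold tau
  rw [liftAlternating_apply_ιMulti, Pi.single_eq_of_ne h]
  rfl

lemma tau_ιMulti {k : ℕ} (v : Fin k → (Fin k → F)) :
    tau F k (ιMulti F k v) = (Pi.basisFun F (Fin k)).det v := by
  unfold tau
  rw [liftAlternating_apply_ιMulti, Pi.single_eq_same]

lemma sg_eq_map {W : Type*} [AddCommGroup W] [Module F W] :
    (sg : ExteriorAlgebra F W →ₐ[F] ExteriorAlgebra F W) = ExteriorAlgebra.map (-LinearMap.id) := by
  apply ExteriorAlgebra.hom_ext
  ext v
  simp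

lemma sg_ιMulti {W : Type*} [AddCommGroup W] [Module F W] (n : ℕ) (v : Fin n → W) :
    sg (ιMulti F n v) = (-1 : F) ^ n • ιMulti F n v := by
  rw [sg_eq_map, map_apply_ιMulti]
  have : ((-LinearMap.id : W →ₗ[F] W) ∘ v) = fun i => (-1 : F) • v i := by
    ext i; simp
  rw [this]
  have h := (ιMulti F (M := W) n).toMultilinearMap.map_smul_univ (fun _ => (-1 : F)) v
  simp only [Finset.prod_const, Finset.card_univ, Fintype.card_fin] at h
  exact h

lemma tau_sg {k : ℕ} (hk : Even k) (a : ExteriorAlgebra F (Fin k → F)) :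
    tau F k (sg a) = tau F k a := by
  have h : (tau F k) ∘ₗ (sg : ExteriorAlgebra F (Fin k → F) →ₐ[F] _).toLinearMap = tau F k := by
    apply ExteriorAlgebra.lhom_ext
    intro i
    ext v
    simp only [LinearMap.compAlternatingMap_apply, LinearMap.comp_apply, AlgHom.toLinearMap_apply]
    rw [sg_ιMulti, map_smul]
    by_cases hi : i = k
    · subst hi
      rw [hk.neg_one_pow, one_smul]
    · rw [tau_ιMulti_ne hi, smul_zero]
  exact DFunLike.congr_fun h a

lemma tau_skew {k : ℕ} (hk : Even k) (x : Fin k → F) (g : ExteriorAlgebra F (Fin k → F)) :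
    tau F k (ι F x * g) = - tau F k (g * ι F x) := by
  rw [← tau_sg hk (ι F x * g), map_mul, sg_ι, neg_mul, map_neg, ι_mul, sg_sg]

/-- product of the first `n` terms of a sequence of vectors -/
noncomputable def PP {W : Type*} [AddCommGroup W] [Module F W] (s : ℕ → W) :
    ℕ → ExteriorAlgebra F W
  | 0 => 1
  | n + 1 => PP s n * ι F (s n)

lemma PP_eq {W : Type*} [AddCommGroup W] [Module F W] (s : ℕ → W) (n : ℕ) :
    PP s n = ιMulti F n (fun i : Fin n => s i) := by
  induction n with
  | zero => simp [PP]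
  | succ n ih =>
    rw [PP, ih, ιMulti_apply, ιMulti_apply, List.ofFn_succ', List.prod_concat]
    rfl

end

end N865.FB
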