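import Pool.Agent.N865.FB.Ext

/-! The trilinear form and the key cancellation. -/

set_option linter.unusedSectionVars false

namespace N865.FB

open ExteriorAlgebra

section
variable {F : Type*} [Field F] {W : Type*} [AddCommGroup W] [Module F W]

/-- the symmetrised product `(ab+ba)/2` in characteristic three -/
noncomputable def jm (a b : ExteriorAlgebra F W) : ExteriorAlgebra F W := -(a * b + b * a)

/-- the trilinear form -/
noncomputable def tt (a b c : ExteriorAlgebra F W) : ExteriorAlgebra F W := jm a b * c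

lemma tt_add1 (a a' b c : ExteriorAlgebra F W) : tt (a + a') b c = tt a b c + tt a' b c := by
  unfold tt jm; noncomm_ring
lemma tt_add2 (a b b' c : ExteriorAlgebra F W) : tt a (b + b') c = tt a b c + tt a b' c := by
  unfold tt jm; noncomm_ring
lemma tt_add3 (a b c c' : ExteriorAlgebra F W) : tt a b (c + c') = tt a b c + tt a b c' := by
  unfold tt jm; noncomm_ring

lemma tt_central (a b c : ExteriorAlgebra F W) {x y z : ExteriorAlgebra F W}
    (hx : sg x = x) (hy : sg y = y) :
    tt (a * x) (b * y) (c * z) = tt a b c * (x * y * z) := by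
  have e1 : a * x * (b * y) = a * b * (x * y) := by
    rw [mul_assoc, ← mul_assoc x, central_of_even hx b]; simp only [mul_assoc]
  have e2 : b * y * (a * x) = b * a * (x * y) := by
    rw [mul_assoc, ← mul_assoc y, central_of_even hy a, central_of_even hx y]
    simp only [mul_assoc]
  have hxy : sg (x * y) = x * y := by rw [map_mul, hx, hy]
  unfold tt jm
  rw [e1, e2, ← add_mul, neg_mul, neg_mul, neg_mul, neg_inj]
  rw [mul_assoc (a * b + b * a) (x * y), ← mul_assoc (x * y) c z, central_of_even hxy c]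
  simp only [mul_assoc]

variable [CharP F 3]

lemma tt_aab (a b : ExteriorAlgebra F W) : tt a a b = a * a * b := by
  unfold tt jm
  have h := three_eq (a * a * b)
  calc -(a * a + a * a) * b = a * a * b - (a * a * b + a * a * b + a * a * b) := by noncomm_ring
    _ = _ := by rw [h, sub_zero]

lemma tt_baa (a b : ExteriorAlgebra F W) : tt b a a = a * a * b := by
  unfold tt jm
  have h := pol a b
  calc -(b * a + a * b) * a = a * a * b - (a * a * b + a * b * a + b * a * a) := by noncomm_ring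
    _ = _ := by rw [h, sub_zero]

lemma tt_aba (a b : ExteriorAlgebra F W) : tt a b a = a * a * b := by
  rw [← tt_baa]; unfold tt jm; rw [add_comm]

lemma tt_expand (a b1 b2 b3 : ExteriorAlgebra F W) {c1 c2 c3 d1 d2 d3 : ExteriorAlgebra F W}
    (hc1 : sg c1 = c1) (hc2 : sg c2 = c2)
    (hd1 : sg d1 = d1) (hd2 : sg d2 = d2)
    (h12 : d1 * d2 = 0) (h13 : d1 * d3 = 0) (h23 : d2 * d3 = 0) :
    tt (a * c1 + b1 * d1) (a * c2 + b2 * d2) (a * c3 + b3 * d3)
      = a * a * a * (c1 * c2 * c3) + a * a * b1 * (d1 * c2 * c3) + a * a * b2 * (c1 * d2 * c3)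
        + a * a * b3 * (c1 * c2 * d3) := by
  have z1 : d1 * c2 * d3 = 0 := by
    rw [← central_of_even hc2 d1, mul_assoc, h13, mul_zero]
  have z2 : c1 * d2 * d3 = 0 := by rw [mul_assoc, h23, mul_zero]
  simp only [tt_add1, tt_add2, tt_add3]
  rw [tt_central a a a hc1 hc2, tt_central b1 a a hd1 hc2, tt_central a b2 a hc1 hd2,
    tt_central b1 b2 a hd1 hd2, tt_central a a b3 hc1 hc2, tt_central b1 a b3 hd1 hc2,
    tt_central a b2 b3 hc1 hd2, tt_central b1 b2 b3 hd1 hd2]
  rw [tt_aab, tt_baa, tt_aba, tt_aab, h12, z1, z2]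
  simp only [zero_mul, mul_zero, add_zero]

/-- product of six factors in a fixed pattern -/
noncomputable def QQ (u : W) (V : ExteriorAlgebra F W) (p q r s : W) : ExteriorAlgebra F W :=
  ι F p * ι F q * (ι F r * ι F u) * (ι F s * V)

lemma ι_anti (p q : W) : ι F p * ι F q = -(ι F q * ι F p) := by
  rw [ι_mul, sg_ι, neg_mul]

lemma QQ_12 (u : W) (V : ExteriorAlgebra F W) (p q r s : W) :
    QQ u V p q r s = - QQ u V q p r s := by
  unfold QQ; rw [ι_anti p q]; simp only [neg_mul]

lemma QQ_23 (u : W) (V : ExteriorAlgebra F W) (p q r s : W) :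
    QQ u V p q r s = - QQ u V p r q s := by
  have h : ι F p * ι F q * (ι F r * ι F u) = -(ι F p * ι F r * (ι F q * ι F u)) := by
    rw [mul_assoc, ← mul_assoc (ι F q), ι_anti q r]; noncomm_ring
  unfold QQ; rw [h, neg_mul]

lemma QQ_34 (u : W) (V : ExteriorAlgebra F W) (p q r s : W) :
    QQ u V p q r s = - QQ u V p q s r := by
  have h : ι F r * ι F u * (ι F s * V) = -(ι F s * ι F u * (ι F r * V)) := by
    calc ι F r * ι F u * (ι F s * V) = ι F r * (ι F u * ι F s) * V := by noncomm_ring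
      _ = -((ι F r * ι F s) * ι F u * V) := by rw [ι_anti u s]; noncomm_ring
      _ = ι F s * (ι F r * ι F u) * V := by rw [ι_anti r s]; noncomm_ring
      _ = -(ι F s * ι F u * (ι F r * V)) := by rw [ι_anti r u]; noncomm_ring
  unfold QQ; rw [mul_assoc (ι F p * ι F q), h, mul_assoc (ι F p * ι F q), mul_neg]

/-- one of the four terms -/
noncomputable def term (a : ExteriorAlgebra F W) (x u : W) (V : ExteriorAlgebra F W)
    (ba bb bc : ExteriorAlgebra F W) (xa xi xb xc : W) : ExteriorAlgebra F W :=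
  tt ((a * ι F xa + ba * ι F x) * ι F xi) ((a * ι F xb + bb * ι F x) * ι F u)
    ((a * ι F xc + bc * ι F x) * V)

lemma term_eq (a : ExteriorAlgebra F W) (x u : W) (V : ExteriorAlgebra F W)
    (ba bb bc : ExteriorAlgebra F W) (xa xi xb xc : W) :
    term a x u V ba bb bc xa xi xb xc = a * a * a * QQ u V xa xi xb xc
      + a * a * ba * QQ u V x xi xb xc + a * a * bb * QQ u V xa xi x xc
      + a * a * bc * QQ u V xa xi xb x := by
  have key : ∀ (m : ExteriorAlgebra F W) (z : ExteriorAlgebra F W),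
      ι F x * m * (ι F x * z) = 0 := by
    intro m z
    rw [ι_mul, mul_assoc, ← mul_assoc (ι F x), ι_sq_zero, zero_mul, mul_zero]
  unfold term
  rw [add_mul, add_mul, add_mul, mul_assoc a, mul_assoc ba, mul_assoc a, mul_assoc bb,
    mul_assoc a, mul_assoc bc]
  rw [tt_expand a ba bb bc (sg_pair xa xi) (sg_pair xb u) (sg_pair x xi) (sg_pair x u)
    (key _ _) (key _ _) (key _ _)]
  rfl

lemma four_terms (a : ExteriorAlgebra F W) (x u : W) (V : ExteriorAlgebra F W)
    (b1 b2 b3 b4 : ExteriorAlgebra F W) (x1 x2 x3 x4 : W) :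
    term a x u V b1 b2 b3 x1 x4 x2 x3 - term a x u V b1 b2 b4 x1 x3 x2 x4
      + term a x u V b1 b3 b4 x1 x2 x3 x4 - term a x u V b2 b3 b4 x2 x1 x3 x4
      = a * a * a * QQ u V x1 x2 x3 x4 := by
  rw [term_eq a x u V, term_eq a x u V, term_eq a x u V, term_eq a x u V]
  -- normalise all the products
  have p1 : QQ u V x1 x4 x2 x3 = QQ u V x1 x2 x3 x4 := by
    rw [QQ_23, QQ_34, neg_neg]
  have p2 : QQ u V x1 x3 x2 x4 = - QQ u V x1 x2 x3 x4 := by rw [QQ_23]
  have p3 : QQ u V x2 x1 x3 x4 = - QQ u V x1 x2 x3 x4 := by rw [QQ_12]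
  -- replacing x1
  have a1 : QQ u V x x4 x2 x3 = QQ u V x x2 x3 x4 := by rw [QQ_23, QQ_34, neg_neg]
  have a2 : QQ u V x x3 x2 x4 = - QQ u V x x2 x3 x4 := by rw [QQ_23]
  -- replacing x2
  have c1 : QQ u V x1 x4 x x3 = QQ u V x1 x x3 x4 := by rw [QQ_23, QQ_34, neg_neg]
  have c2 : QQ u V x1 x3 x x4 = - QQ u V x1 x x3 x4 := by rw [QQ_23]
  have c3 : QQ u V x x1 x3 x4 = - QQ u V x1 x x3 x4 := by rw [QQ_12]
  -- replacing x3
  have d1 : QQ u V x1 x4 x2 x = QQ u V x1 x2 x x4 := by rw [QQ_23, QQ_34, neg_neg]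
  have d3 : QQ u V x2 x1 x x4 = - QQ u V x1 x2 x x4 := by rw [QQ_12]
  -- replacing x4
  have e1 : QQ u V x1 x3 x2 x = - QQ u V x1 x2 x3 x := by rw [QQ_23]
  have e3 : QQ u V x2 x1 x3 x = - QQ u V x1 x2 x3 x := by rw [QQ_12]
  rw [p1, p2, p3, a1, a2, c1, c2, c3, d1, d3, e1, e3]
  have t0 := three_eq (a * a * a * QQ u V x1 x2 x3 x4)
  have t1 := three_eq (a * a * b1 * QQ u V x x2 x3 x4)
  have t2 := three_eq (a * a * b2 * QQ u V x1 x x3 x4)
  have t3 := three_eq (a * a * b3 * QQ u V x1 x2 x x4)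
  have t4 := three_eq (a * a * b4 * QQ u V x1 x2 x3 x)
  simp only [mul_neg]
  generalize a * a * a * QQ u V x1 x2 x3 x4 = T0 at *
  generalize a * a * b1 * QQ u V x x2 x3 x4 = T1 at *
  generalize a * a * b2 * QQ u V x1 x x3 x4 = T2 at *
  generalize a * a * b3 * QQ u V x1 x2 x x4 = T3 at *
  generalize a * a * b4 * QQ u V x1 x2 x3 x = T4 at *
  calc _ = T0 + (T0 + T0 + T0) + (T1 + T1 + T1) + (T2 + T2 + T2) + (T3 + T3 + T3)
        + (T4 + T4 + T4) := by abel
    _ = T0 := by rw [t0, t1, t2, t3, t4]; simp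

end

end N865.FB
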